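import Pool.Agent.Helper62.BX.Stm

/-! # Package X5 (X_Count) -/

set_option autoImplicit false
set_option linter.unusedSectionVars false

open Polynomial Matrix Finset Filter NumberField IsDedekindDomain

namespace Pool.Agent.Helper82.BX

open Pool.Agent.Helper62.BM Pool.Agent.Helper62.BW Pool.Agent.Helper62.BX

section

variable {K : Type} [Field K] [NumberField K]

theorem asIdeal_inj : Function.Injective (HeightOneSpectrum.asIdeal (R := 𝓞 K)) := fun _ _ h =>
  HeightOneSpectrum.ext h

theorem fin_mem (a : 𝓞 K) (ha : a ≠ 0) : {v : HeightOneSpectrum (𝓞 K) | a ∈ v.asIdeal}.Finite := by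
  have h : Ideal.span {a} ≠ 0 := by
    rw [Ne, Ideal.zero_eq_bot, Ideal.span_singleton_eq_bot]
    exact ha
  refine (Ideal.finite_factors h).subset fun v hv => ?_
  exact Ideal.dvd_span_singleton.2 hv

theorem fin_le (n : ℕ) :
    {v : HeightOneSpectrum (𝓞 K) | Ideal.absNorm v.asIdeal ≤ n}.Finite := by
  have h := Ideal.finite_setOfPred_absNorm_le (S := 𝓞 K) n
  exact h.preimage asIdeal_inj.injOn

/-- Schwartz-Zippel modulo a place of prime norm. -/
theorem few_zeros {r : ℕ} (c : MvPolynomial (Fin r) (𝓞 K)) (v : HeightOneSpectrum (𝓞 K))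
    (hv : (Ideal.absNorm v.asIdeal).Prime)
    (hc : MvPolynomial.map (Ideal.Quotient.mk v.asIdeal) c ≠ 0) :
    open Classical in
    ((Fintype.piFinset fun _ : Fin r => range (Ideal.absNorm v.asIdeal)).filter
      fun s => evs s c ∈ v.asIdeal).card * Ideal.absNorm v.asIdeal ≤
      c.totalDegree * Ideal.absNorm v.asIdeal ^ r := by
  classical
  set p := Ideal.absNorm v.asIdeal with hp
  have : Fact p.Prime := ⟨hv⟩
  have hmax : v.asIdeal.IsMaximal := v.isMaximal
  let _ : Field (𝓞 K ⧸ v.asIdeal) := Ideal.Quotient.field v.asIdeal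
  have hcard : Nat.card (𝓞 K ⧸ v.asIdeal) = p := rfl
  have hfin : Finite (𝓞 K ⧸ v.asIdeal) := Nat.finite_of_card_ne_zero (by
    rw [hcard]; exact hv.ne_zero)
  have _ : Fintype (𝓞 K ⧸ v.asIdeal) := Fintype.ofFinite _
  have hchar : CharP (𝓞 K ⧸ v.asIdeal) p := charP_of_card_eq_prime (by
    rw [← Nat.card_eq_fintype_card]; exact hcard)
  have hinj : Set.InjOn (Nat.cast : ℕ → 𝓞 K ⧸ v.asIdeal) (Set.Iio p) :=
    CharP.natCast_injOn_Iio (𝓞 K ⧸ v.asIdeal) p
  let S : Finset (𝓞 K ⧸ v.asIdeal) := (range p).image Nat.cast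
  have hS : S.card = p := by
    have h1 : S.card = (range p).card := Finset.card_image_of_injOn (by
      intro a ha b hb h
      exact hinj (Finset.mem_range.1 ha) (Finset.mem_range.1 hb) h)
    rw [h1, Finset.card_range]
  have hsz := MvPolynomial.schwartz_zippel_totalDegree hc S
  set c' := MvPolynomial.map (Ideal.Quotient.mk v.asIdeal) c with hc'
  have hdeg : c'.totalDegree ≤ c.totalDegree := by
    unfold MvPolynomial.totalDegree
    exact Finset.sup_mono (MvPolynomial.support_map_subset _ _)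
  have hmap : ((Fintype.piFinset fun _ : Fin r => range p).filter
      fun s => evs s c ∈ v.asIdeal).card ≤
      ((Fintype.piFinset fun _ : Fin r => S).filter fun f => MvPolynomial.eval f c' = 0).card := by
    refine Finset.card_le_card_of_injOn (fun s i => ((s i : ℕ) : 𝓞 K ⧸ v.asIdeal)) ?_ ?_
    · intro s hs
      obtain ⟨h1, h2⟩ := Finset.mem_filter.1 (Finset.mem_coe.1 hs)
      refine Finset.mem_coe.2 (Finset.mem_filter.2 ⟨?_, ?_⟩)
      · rw [Fintype.mem_piFinset] at h1 ⊢
        exact fun i => Finset.mem_image_of_mem _ (h1 i)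
      · have h3 : MvPolynomial.eval (fun i => ((s i : ℕ) : 𝓞 K ⧸ v.asIdeal)) c' =
            Ideal.Quotient.mk v.asIdeal (evs s c) := by
          rw [hc', MvPolynomial.eval_map]
          unfold evs
          rw [← MvPolynomial.eval₂_id, MvPolynomial.hom_eval₂]
          congr 1
        show MvPolynomial.eval (fun i => ((s i : ℕ) : 𝓞 K ⧸ v.asIdeal)) c' = 0
        rw [h3, Ideal.Quotient.eq_zero_iff_mem]
        exact h2
    · intro s hs s' hs' h
      obtain ⟨h1, -⟩ := Finset.mem_filter.1 (Finset.mem_coe.1 hs)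
      obtain ⟨h1', -⟩ := Finset.mem_filter.1 (Finset.mem_coe.1 hs')
      rw [Fintype.mem_piFinset] at h1 h1'
      funext i
      exact hinj (Finset.mem_range.1 (h1 i)) (Finset.mem_range.1 (h1' i)) (congrFun h i)
  rw [hS] at hsz
  have hpq : (0 : ℚ≥0) < p := by exact_mod_cast hv.pos
  rw [div_le_div_iff₀ (pow_pos hpq r) hpq] at hsz
  have hsz' : ((Fintype.piFinset fun _ : Fin r => S).filter
      fun f => MvPolynomial.eval f c' = 0).card * p ≤ c'.totalDegree * p ^ r := by
    exact_mod_cast hsz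
  calc _ ≤ ((Fintype.piFinset fun _ : Fin r => S).filter
      fun f => MvPolynomial.eval f c' = 0).card * p := Nat.mul_le_mul_right _ hmap
    _ ≤ c'.totalDegree * p ^ r := hsz'
    _ ≤ c.totalDegree * p ^ r := Nat.mul_le_mul_right _ hdeg

theorem x_Count : X_Count := by
  classical
  intro K _ _ r Cond Good hfew ε hε
  obtain ⟨c, hc0, hfin⟩ := hfew (ε / 2) (by positivity)
  obtain ⟨m, hm⟩ := MvPolynomial.ne_zero_iff.1 hc0
  obtain ⟨N, hN⟩ := exists_nat_gt (2 * c.totalDegree / ε : ℝ)
  refine ((hfin.union (fin_mem (K := K) (c.coeff m) hm)).union (fin_le (K := K) N)).subset ?_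
  rintro v ⟨hv, hcond, hlt⟩
  by_contra hno
  simp only [Set.mem_union, not_or] at hno
  obtain ⟨⟨h1, h2⟩, h3⟩ := hno
  have h2' : MvPolynomial.coeff m c ∉ v.asIdeal := h2
  have h3' : N < Ideal.absNorm v.asIdeal := by
    have h3'' : ¬ Ideal.absNorm v.asIdeal ≤ N := h3
    omega
  have hcv : MvPolynomial.map (Ideal.Quotient.mk v.asIdeal) c ≠ 0 := by
    intro h
    apply h2'
    rw [← Ideal.Quotient.eq_zero_iff_mem, ← MvPolynomial.coeff_map, h, MvPolynomial.coeff_zero]
  have hz := few_zeros c v hv hcv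
  set p := Ideal.absNorm v.asIdeal with hp
  have hgood : ∀ s : Fin r → ℕ, evs s c ∉ v.asIdeal →
      (((range p).filter fun t : ℕ => ¬ Good v s t).card : ℝ) ≤ ε / 2 * p := by
    intro s hs
    by_contra hcon
    exact h1 ⟨hv, hcond, s, hs, not_le.1 hcon⟩
  -- the count
  set Bad := ((Fintype.piFinset fun _ : Fin (r + 1) => range p).filter
          fun u => ¬ Good v (fun i => u i.castSucc) (u (Fin.last r))) with hBad
  set SS := Fintype.piFinset fun _ : Fin r => range p with hSS
  have hmaps : ∀ u ∈ Bad, (fun i : Fin r => u i.castSucc) ∈ SS := by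
    intro u hu
    have h4 := (Finset.mem_filter.1 hu).1
    rw [Fintype.mem_piFinset] at h4
    rw [hSS, Fintype.mem_piFinset]
    exact fun i => h4 i.castSucc
  have hsum := Finset.card_eq_sum_card_fiberwise hmaps
  have hfib : ∀ s ∈ SS, (Bad.filter fun u => (fun i : Fin r => u i.castSucc) = s).card ≤
      ((range p).filter fun t : ℕ => ¬ Good v s t).card := by
    intro s _
    refine Finset.card_le_card_of_injOn (fun u => u (Fin.last r)) ?_ ?_
    · intro u hu
      obtain ⟨h4, h5⟩ := Finset.mem_filter.1 (Finset.mem_coe.1 hu)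
      obtain ⟨h6, h7⟩ := Finset.mem_filter.1 h4
      rw [Fintype.mem_piFinset] at h6
      refine Finset.mem_coe.2 (Finset.mem_filter.2 ⟨h6 _, ?_⟩)
      rw [h5] at h7
      exact h7
    · intro u hu u' hu' h
      obtain ⟨-, h5⟩ := Finset.mem_filter.1 (Finset.mem_coe.1 hu)
      obtain ⟨-, h5'⟩ := Finset.mem_filter.1 (Finset.mem_coe.1 hu')
      funext i
      refine Fin.lastCases h (fun j => ?_) i
      exact congrFun (h5.trans h5'.symm) j
  have hppos : (0 : ℝ) < p := by exact_mod_cast hv.pos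
  have hbound : (Bad.card : ℝ) ≤ ∑ s ∈ SS, (ε / 2 * p + if evs s c ∈ v.asIdeal then (p : ℝ) else 0) := by
    rw [hsum]
    push_cast
    refine Finset.sum_le_sum fun s hs => ?_
    have h4 : ((Bad.filter fun u => (fun i : Fin r => u i.castSucc) = s).card : ℝ) ≤
      ((range p).filter fun t : ℕ => ¬ Good v s t).card := by exact_mod_cast hfib s hs
    refine h4.trans ?_
    split_ifs with h5
    · have h6 : (((range p).filter fun t : ℕ => ¬ Good v s t).card : ℝ) ≤ p := by
        have h7 := Finset.card_filter_le (range p) (fun t : ℕ => ¬ Good v s t)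
        rw [Finset.card_range] at h7
        exact_mod_cast h7
      have h8 : 0 ≤ ε / 2 * p := by positivity
      linarith
    · rw [add_zero]
      exact hgood s h5
  rw [Finset.sum_add_distrib, Finset.sum_const, ← Finset.sum_filter, Finset.sum_const, nsmul_eq_mul,
    nsmul_eq_mul] at hbound
  have hSScard : (SS.card : ℝ) = (p : ℝ) ^ r := by
    rw [hSS, Fintype.card_piFinset]
    simp
  rw [hSScard] at hbound
  have hz' : ((SS.filter fun s => evs s c ∈ v.asIdeal).card : ℝ) * p ≤ c.totalDegree * (p : ℝ) ^ r := by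
    exact_mod_cast hz
  have hN' : (2 * c.totalDegree / ε : ℝ) < p := hN.trans (by exact_mod_cast h3')
  rw [div_lt_iff₀ hε] at hN'
  have hpr : (0 : ℝ) < (p : ℝ) ^ r := by positivity
  have hfinal : (Bad.card : ℝ) ≤ ε * (p : ℝ) ^ (r + 1) := by
    have h9 : (c.totalDegree : ℝ) * (p : ℝ) ^ r ≤ ε / 2 * p * (p : ℝ) ^ r := by
      apply mul_le_mul_of_nonneg_right _ hpr.le
      linarith
    calc (Bad.card : ℝ) ≤ (p : ℝ) ^ r * (ε / 2 * p) + c.totalDegree * (p : ℝ) ^ r :=
          hbound.trans (by linarith)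
      _ ≤ (p : ℝ) ^ r * (ε / 2 * p) + ε / 2 * p * (p : ℝ) ^ r := by linarith
      _ = ε * (p : ℝ) ^ (r + 1) := by ring
  exact absurd hlt (not_lt.2 hfinal)

end

end Pool.Agent.Helper82.BX
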